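import Pool.Agent.N659.HB.Stm10
import Pool.Agent.N491.SD.U1

/-!
# Integrals of positive functions, Gaussian law (part GA of project SN, helper659; proof by helper61)
-/

set_option autoImplicit false

namespace Pool.Agent.N61.SN.GA

open MeasureTheory Filter Set Pool.Agent.N659.HB ProbabilityTheory Pool.Agent.N491.SD.U1
open scoped Topology ENNReal

/-- the upper bound of the density -/
noncomputable def D (s : ℝ) : ℝ := (√(2 * Real.pi * s ^ 2))⁻¹

theorem D_nonneg (s : ℝ) : 0 ≤ D s := by unfold D; positivity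

/-- The variance. -/
theorem gs_eq {s : ℝ} (hs : 0 < s) : ∃ v : NNReal, (v : ℝ) = s ^ 2 ∧ v ≠ 0 ∧
    gs s = gaussianReal 0 v := by
  refine ⟨⟨s ^ 2, sq_nonneg s⟩, rfl, ?_, rfl⟩
  intro h
  have h1 : s ^ 2 = 0 := congrArg NNReal.toReal h
  exact (pow_pos hs 2).ne' h1

theorem dens_le {s : ℝ} {v : NNReal} (hv : (v : ℝ) = s ^ 2) (x : ℝ) :
    gaussianPDFReal 0 v x ≤ D s := by
  unfold gaussianPDFReal D
  have h1 : Real.exp (-(x - 0) ^ 2 / (2 * (v : ℝ))) ≤ 1 := by
    rw [Real.exp_le_one_iff]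
    apply div_nonpos_of_nonpos_of_nonneg
    · simp only [sub_zero, Left.neg_nonpos_iff]; positivity
    · positivity
  rw [hv] at h1 ⊢
  exact mul_le_of_le_one_right (by positivity) h1

/-- the integral of a positive function against the law -/
theorem gs_le {s : ℝ} (hs : 0 < s) {f : ℝ → ℝ} (hf0 : ∀ t, 0 ≤ f t) (hf : Integrable f) :
    ∫ t, f t ∂(gs s) ≤ D s * ∫ t, f t := by
  obtain ⟨v, hv, hv0, hg⟩ := gs_eq hs
  rw [hg, integral_gaussianReal_eq_integral_smul hv0, ← integral_const_mul]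
  apply integral_mono_of_nonneg
  · exact ae_of_all _ fun t => smul_nonneg (gaussianPDFReal_nonneg _ _ _) (hf0 t)
  · exact hf.const_mul _
  · refine ae_of_all _ fun t => ?_
    simp only [smul_eq_mul]
    exact mul_le_mul_of_nonneg_right (dens_le hv t) (hf0 t)

/-- The law has no atoms. -/
theorem gs_ne {s : ℝ} (hs : 0 < s) (x : ℝ) : ∀ᵐ t ∂(gs s), t ≠ x := by
  obtain ⟨v, hv, hv0, hg⟩ := gs_eq hs
  have h1 : gs s ≪ volume := by
    rw [hg]
    exact gaussianReal_absolutelyContinuous _ hv0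
  exact h1.ae_le ((measure_eq_zero_iff_ae_notMem.1 (measure_singleton x)).mono fun t ht => ht)

/-- integrable functions against the law -/
theorem gs_int {s : ℝ} (hs : 0 < s) {f : ℝ → ℝ} (hf : Integrable f) : Integrable f (gs s) := by
  obtain ⟨v, hv, hv0, hg⟩ := gs_eq hs
  rw [hg, gaussianReal_of_var_ne_zero _ hv0]
  have hm : Measurable (gaussianPDF 0 v) := measurable_gaussianPDF _ _
  rw [integrable_withDensity_iff_integrable_smul' hm
    (ae_of_all _ fun x => by unfold gaussianPDF; exact ENNReal.ofReal_lt_top)]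
  refine Integrable.mono' (hf.norm.const_mul (D s)) ?_ ?_
  · exact (hm.ennreal_toReal.aestronglyMeasurable).smul hf.aestronglyMeasurable
  · refine ae_of_all _ fun t => ?_
    rw [norm_smul, toReal_gaussianPDF, Real.norm_of_nonneg (gaussianPDFReal_nonneg _ _ _)]
    exact mul_le_mul_of_nonneg_right (dens_le hv t) (norm_nonneg _)

/-- (1) -/
theorem part1 {s : ℝ} (hs : 0 < s) {ζ : ℂ} (hζ : 0 < ζ.im) :
    ∫ t, 1 / ‖(t : ℂ) - ζ‖ ^ 2 ∂(gs s) ≤ D s * Real.pi / ζ.im := by
  have e : ∀ t : ℝ, 1 / ‖(t : ℂ) - ζ‖ ^ 2 = (ζ.im ^ 2)⁻¹ * (1 + ((t - ζ.re) / ζ.im) ^ 2)⁻¹ := by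
    intro t
    rw [norm_sq]
    have h3 : 0 < (t - ζ.re) ^ 2 + ζ.im ^ 2 := by positivity
    have h4 : 1 + ((t - ζ.re) / ζ.im) ^ 2 = ((t - ζ.re) ^ 2 + ζ.im ^ 2) / ζ.im ^ 2 := by
      field_simp
      ring
    rw [h4]
    field_simp
  have h1 : Integrable fun t : ℝ => (1 + ((t - ζ.re) / ζ.im) ^ 2)⁻¹ :=
    (integrable_inv_one_add_sq.comp_div hζ.ne').comp_sub_right ζ.re
  have h2 : ∫ t : ℝ, (1 + ((t - ζ.re) / ζ.im) ^ 2)⁻¹ = ζ.im * Real.pi := by
    rw [integral_sub_right_eq_self (fun t : ℝ => (1 + (t / ζ.im) ^ 2)⁻¹) ζ.re,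
      Measure.integral_comp_div (fun t : ℝ => (1 + t ^ 2)⁻¹) ζ.im, integral_univ_inv_one_add_sq,
      smul_eq_mul, abs_of_pos hζ]
  simp only [e]
  refine (gs_le hs (fun t => by positivity) (h1.const_mul _)).trans (le_of_eq ?_)
  rw [integral_const_mul, h2]
  field_simp

/-- a bound by a singular integral -/
theorem sing_le {s : ℝ} (hs : 0 < s) {p : ℝ} (hp0 : 0 < p) (hp1 : p < 1) (x : ℝ) {f : ℝ → ℝ}
    {M : ℝ} (hM : 0 ≤ M) (hf0 : ∀ t, 0 ≤ f t) (hf : ∀ t, t ≠ x → f t ≤ M * |t - x| ^ (-p)) :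
    ∫ t, f t ∂(gs s) ≤ M * (1 + D s * (2 / (1 - p))) := by
  have hJ : IntegrableOn (fun t : ℝ => |t - x| ^ (-p)) (Icc (x - 1) (x + 1)) := by
    rw [integrableOn_Icc_iff_integrableOn_Ioc]
    exact (intervalIntegrable_iff_integrableOn_Ioc_of_le (by linarith)).1 (sing_int hp1 x _ _)
  have hind : Integrable ((Icc (x - 1) (x + 1)).indicator fun t => |t - x| ^ (-p)) :=
    (integrable_indicator_iff measurableSet_Icc).2 hJ
  have h1 : ∀ t : ℝ, |t - x| ^ (-p) ≤ 1 + (Icc (x - 1) (x + 1)).indicator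
      (fun t => |t - x| ^ (-p)) t := by
    intro t
    by_cases ht : t ∈ Icc (x - 1) (x + 1)
    · rw [indicator_of_mem ht]; linarith
    · rw [indicator_of_notMem ht, add_zero]
      have h2 : 1 ≤ |t - x| := by
        by_contra hlt
        push Not at hlt
        rw [abs_lt] at hlt
        exact ht ⟨by linarith, by linarith⟩
      exact Real.rpow_le_one_of_one_le_of_nonpos h2 (by linarith)
  have h6 : ∫ t, (Icc (x - 1) (x + 1)).indicator (fun t => |t - x| ^ (-p)) t = 2 / (1 - p) := by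
    rw [integral_indicator measurableSet_Icc, integral_Icc_eq_integral_Ioc,
      ← intervalIntegral.integral_of_le (by linarith)]
    have := intervalIntegral.integral_comp_sub_right (a := x - 1) (b := x + 1)
      (fun u : ℝ => |u| ^ (-p)) x
    rw [this, show x - 1 - x = -1 by ring, show x + 1 - x = 1 by ring, sing_one hp1]
  have hgi := gs_int hs hind
  have h7 := gs_le hs (f := (Icc (x - 1) (x + 1)).indicator fun t => |t - x| ^ (-p))
    (fun t => indicator_nonneg (fun t _ => by positivity) t) hind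
  rw [h6] at h7
  calc ∫ t, f t ∂(gs s) ≤ ∫ t, M * (1 + (Icc (x - 1) (x + 1)).indicator
        (fun t => |t - x| ^ (-p)) t) ∂(gs s) := by
        apply integral_mono_of_nonneg (ae_of_all _ hf0)
        · exact ((integrable_const (1 : ℝ)).add hgi).const_mul M
        · filter_upwards [gs_ne hs x] with t ht
          exact (hf t ht).trans (mul_le_mul_of_nonneg_left (h1 t) hM)
    _ = M * (1 + ∫ t, (Icc (x - 1) (x + 1)).indicator (fun t => |t - x| ^ (-p)) t ∂(gs s)) := by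
        rw [integral_const_mul, integral_add (integrable_const _) hgi]
        simp
    _ ≤ _ := by gcongr

/-- (2) -/
theorem part2 {s : ℝ} (hs : 0 < s) {ζ : ℂ} {y : ℝ} (hy : 0 < y) (hyζ : y ≤ ζ.im) :
    ∫ t, 1 / ‖(t : ℂ) - ζ‖ ∂(gs s) ≤ (1 + D s * 32) * y ^ (-(1 / 16) : ℝ) := by
  have hζ : 0 < ζ.im := hy.trans_le hyζ
  have h := sing_le hs (p := 15 / 16) (by norm_num) (by norm_num) ζ.re
    (f := fun t : ℝ => 1 / ‖(t : ℂ) - ζ‖) (M := y ^ (-(1 / 16) : ℝ)) (by positivity)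
    (fun t => by positivity) (by
      intro t ht
      have h1 := Pool.Agent.N491.SD.U1.norm_pos hζ t
      have h2 : 0 < |t - ζ.re| := abs_pos.2 (sub_ne_zero.2 ht)
      have h3 : 1 / ‖(t : ℂ) - ζ‖ = ‖(t : ℂ) - ζ‖ ^ (-(1 / 16) : ℝ) * ‖(t : ℂ) - ζ‖ ^ (-(15 / 16) : ℝ) := by
        rw [← Real.rpow_add h1, show (-(1 / 16) : ℝ) + -(15 / 16) = -1 by norm_num,
          Real.rpow_neg_one, one_div]
      rw [h3]
      apply mul_le_mul _ _ (by positivity) (by positivity)
      · apply Real.rpow_le_rpow_of_nonpos hy _ (by norm_num)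
        have := norm_ge_im t ζ
        rw [abs_of_pos hζ] at this
        linarith
      · exact Real.rpow_le_rpow_of_nonpos h2 (norm_ge_re t ζ) (by norm_num))
  refine h.trans (le_of_eq ?_)
  norm_num
  ring

/-- (3) -/
theorem part3 {s : ℝ} (hs : 0 < s) (b : ℂ) :
    ∫ t, (1 / ‖(t : ℂ) - b‖) ^ (1 / 2 : ℝ) ∂(gs s) ≤ 1 + D s * 4 := by
  have h := sing_le hs (p := 1 / 2) (by norm_num) (by norm_num) b.re
    (f := fun t : ℝ => (1 / ‖(t : ℂ) - b‖) ^ (1 / 2 : ℝ)) (M := 1) (by positivity)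
    (fun t => by positivity) (by
      intro t ht
      have h2 : 0 < |t - b.re| := abs_pos.2 (sub_ne_zero.2 ht)
      have h1 := norm_ge_re t b
      rw [one_mul, one_div, Real.inv_rpow (norm_nonneg _), ← Real.rpow_neg (norm_nonneg _)]
      exact Real.rpow_le_rpow_of_nonpos h2 h1 (by norm_num))
  refine h.trans (le_of_eq ?_)
  norm_num

theorem main : S_GA := by
  intro s hs
  have hD := D_nonneg s
  have hpi := Real.pi_pos
  have hDpi : 0 ≤ D s * Real.pi := by positivity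
  refine ⟨1 + D s * Real.pi + D s * 32, by linarith [mul_nonneg hD (by norm_num : (0 : ℝ) ≤ 32)],
    ?_, ?_, ?_⟩
  · intro ζ hζ
    refine (part1 hs hζ).trans ?_
    gcongr
    linarith
  · intro ζ y hy _ hyζ
    refine (part2 hs hy hyζ).trans ?_
    apply mul_le_mul_of_nonneg_right _ (by positivity)
    linarith
  · intro ζ _
    refine (part3 hs ζ).trans ?_
    linarith

end Pool.Agent.N61.SN.GA
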